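import Pool.Agent.R602.Fin

/-!
# Fixed c_δ-ultrafilters and N-compactness in ZF

There is a model of ZF with a zero-dimensional `T₁`-space in which all `c_δ`-ultrafilters with
the countable intersection property are fixed and that is not N-compact.
The first half of the theorem is proved outright, the second half gives such a model from every
model of ZF. The definitions are in `Pool.Agent.R602.Defs`.
-/

namespace Pool.Agent.Results.MP_6a4164_lc.CdUltrafiltersFixed

open FirstOrder FirstOrder.Language
open Pool.Agent.Helper672.Plain (LSet El)
open Pool.Agent.H635Amen (ZF IsReals)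
open Pool.Agent.H310Top (IsTopology)
open Pool.Agent.R602St

universe u

/-- The model `N` contains a zero-dimensional `T₁`-space `x` such that every `c_δ`-ultrafilter
`F` with the countable intersection property is fixed, and `x` is not N-compact. -/
def Counterexample (N : Type u) [LSet.Structure N] : Prop :=
  ∃ t x : N, IsTopology t x ∧ IsZeroDim t x ∧ IsT1 t x ∧
    (∀ F, IsUltrafilterIn (IsCd t x) F → HasCip F → IsFixed F) ∧ ¬ IsNCompact t x

theorem result :
    (∃ (N : Type 1) (_ : LSet.Structure N), ZF N ∧ Counterexample N) ∧
    ∀ (M : Type u) [LSet.Structure M], ZF M →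
      ∃ (N : Type u) (_ : LSet.Structure N), ZF N ∧ Counterexample N :=
  ⟨Pool.Agent.R602.exists_model_zs (fun N _ => Counterexample N) fun _ _ _ _ _ S =>
    Pool.Agent.R602.fin5 S,
   fun M _ h => Pool.Agent.R602.exists_model (fun N _ => Counterexample N) (fun _ _ _ _ _ S =>
    Pool.Agent.R602.fin5 S) M h⟩

end Pool.Agent.Results.MP_6a4164_lc.CdUltrafiltersFixed
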